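import Pool.Agent.W133.DQ.StB

set_option autoImplicit false

open scoped ContDiff
open Set Filter Topology
open Pool.Agent.W133.DQ

namespace Pool.Agent.W138.DQ

theorem nb_one {u : P2 → ℝ} {b : ℝ} : NB 1 u b ↔ ∀ p, ‖fderiv ℝ u p‖ ≤ b := by
  unfold NB
  simp only [norm_iteratedFDeriv_one]

theorem pow_succ_apply' (S : Equiv.Perm P2) (n : ℕ) (z : P2) : (S ^ (n + 1)) z = S ((S ^ n) z) := by
  rw [pow_succ', Equiv.Perm.mul_apply]

/-- Claim A. -/
theorem roll_of_strip (P : Equiv.Perm P2) (w W : P2 → ℝ) (b : ℝ) (hP : IsG P w)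
    (hW : ∀ p : P2, W (p.1 + 1, p.2) = W p)
    (h1 : ∀ p : P2, b ≤ p.1 → p.1 < b + 1 → w p = W p)
    (h2 : ∀ p : P2, p.1 < b → w p = 0) (h2' : ∀ p : P2, b + 1 ≤ p.1 → w p = 0)
    (h3 : ∀ p : P2, b ≤ p.1 → p.1 < b + 1 → b ≤ p.1 + w p) :
    Roll P (fun p => (p.1 + W p, p.2)) := by
  have hWn : ∀ (n : ℕ) (x y : ℝ), W (x + n, y) = W (x, y) := by
    intro n x y
    induction n with
    | zero => simp
    | succ n ih =>
      rw [← ih]
      have := hW (x + n, y)
      simp only at this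
      rw [← this]
      congr 2
      push_cast; ring
  refine ⟨fun p => ?_, ?_⟩
  · simp only
    rw [hW p]
    congr 1
    ring
  · obtain ⟨k, hk⟩ := exists_nat_gt (|b| + 4)
    refine ⟨k, fun p hp m n hm hn => ?_⟩
    obtain ⟨x, y⟩ := p
    simp only at hp ⊢
    have hm' : (k : ℝ) ≤ m := by exact_mod_cast hm
    have hn' : (k : ℝ) ≤ n := by exact_mod_cast hn
    have hx := abs_le.1 hp
    have hbb := neg_abs_le b
    have hbb' := le_abs_self b
    set S := P * tr (1, 0) with hS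
    have hSap : ∀ z : P2, S z = (z.1 + 1 + w (z.1 + 1, z.2), z.2) := by
      intro z
      have hz : z + ((1, 0) : P2) = (z.1 + 1, z.2) := by
        ext <;> simp
      rw [hS, Equiv.Perm.mul_apply, tr_apply, hz, hP]
    have L1 : ∀ (i : ℕ) (z : P2), z.1 + i < b → (S ^ i) z = (z.1 + i, z.2) := by
      intro i
      induction i with
      | zero => intro z _; simp
      | succ i ih =>
        intro z hz
        push_cast at hz
        rw [pow_succ_apply', ih z (by linarith), hSap]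
        simp only
        rw [h2 _ (by simp only; linarith)]
        simp only [Prod.mk.injEq, and_true]
        push_cast; ring
    have L2 : ∀ (j : ℕ) (z : P2), b ≤ z.1 → (S ^ j) z = (z.1 + j, z.2) := by
      intro j
      induction j with
      | zero => intro z _; simp
      | succ j ih =>
        intro z hz
        have hj : (0 : ℝ) ≤ j := Nat.cast_nonneg j
        rw [pow_succ_apply', ih z hz, hSap]
        simp only
        rw [h2' _ (by simp only; linarith)]
        simp only [Prod.mk.injEq, and_true]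
        push_cast; ring
    -- the time when the orbit enters
    have hz1 : x - m < b := by linarith
    have hpos : 0 < b - (x - m) := by linarith
    obtain ⟨i, hi1, hi2⟩ : ∃ i : ℕ, b ≤ (x - m) + (i + 1 : ℕ) ∧ (x - m) + (i + 1 : ℕ) < b + 1 := by
      refine ⟨⌈b - (x - m)⌉₊ - 1, ?_⟩
      have hc : 1 ≤ ⌈b - (x - m)⌉₊ := Nat.one_le_ceil_iff.2 hpos
      rw [Nat.sub_add_cancel hc]
      have h1 := Nat.le_ceil (b - (x - m))
      have h2 := Nat.ceil_lt_add_one hpos.le
      constructor <;> linarith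
    have hin : i + 1 ≤ m + n := by
      have : ((i + 1 : ℕ) : ℝ) < (m + n : ℕ) := by
        push_cast at hi2 ⊢
        linarith
      exact_mod_cast this.le
    obtain ⟨j, hj⟩ := Nat.exists_eq_add_of_le hin
    have hi3 : (x - m) + i < b := by push_cast at hi2; linarith
    have hstep : (S ^ (i + 1)) (x - m, y) = ((x - m) + (i + 1 : ℕ) + W (x - m, y), y) := by
      rw [pow_succ_apply', L1 i (x - m, y) hi3, hSap]
      simp only
      have e : x - m + (i : ℝ) + 1 = x - m + (i + 1 : ℕ) := by push_cast; ring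
      rw [e, h1 _ hi1 hi2, hWn (i + 1) (x - m) y]
    have hge : b ≤ (x - m) + (i + 1 : ℕ) + W (x - m, y) := by
      have := h3 ((x - m) + (i + 1 : ℕ), y) hi1 hi2
      rwa [h1 _ hi1 hi2, hWn (i + 1) (x - m) y] at this
    have hWm : W (x - m, y) = W (x, y) := by
      rw [← hWn m (x - m) y]
      congr 2
      ring
    rw [hj, add_comm (i + 1) j, pow_add, Equiv.Perm.mul_apply, hstep, L2 j _ hge, hWm]
    simp only [Prod.mk.injEq, and_true]
    have : ((i + 1 : ℕ) : ℝ) + j = m + n := by exact_mod_cast hj.symm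
    push_cast at this ⊢
    linarith

theorem nb_mul_x {η : ℝ → ℝ} {u : P2 → ℝ} {C d e : ℝ} (hη : ContDiff ℝ ∞ η)
    (hη1 : ∀ x, 0 ≤ η x ∧ η x ≤ 1)
    (hηC : ∀ x, ‖iteratedFDeriv ℝ 1 η x‖ ≤ C) (hu : ContDiff ℝ ∞ u) (hd : ∀ p, |u p| ≤ d)
    (he : NB 1 u e) : NB 1 (fun p => η p.1 * u p) (C * d + e) := by
  rw [nb_one] at he ⊢
  intro p
  have hηd : Differentiable ℝ η := hη.differentiable (by simp)
  have hud : Differentiable ℝ u := hu.differentiable (by simp)
  have hη' : HasFDerivAt (fun p : P2 => η p.1)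
      ((fderiv ℝ η p.1).comp (ContinuousLinearMap.fst ℝ ℝ ℝ)) p :=
    (hηd p.1).hasFDerivAt.comp p hasFDerivAt_fst
  have hmul := hη'.mul (hud p).hasFDerivAt
  have hfd : fderiv ℝ (fun p : P2 => η p.1 * u p) p =
      η p.1 • fderiv ℝ u p + u p • ((fderiv ℝ η p.1).comp (ContinuousLinearMap.fst ℝ ℝ ℝ)) :=
    hmul.fderiv
  rw [hfd]
  have h1 := hη1 p.1
  have hC := hηC p.1
  rw [norm_iteratedFDeriv_one] at hC
  calc ‖η p.1 • fderiv ℝ u p + u p • ((fderiv ℝ η p.1).comp (ContinuousLinearMap.fst ℝ ℝ ℝ))‖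
      ≤ ‖η p.1 • fderiv ℝ u p‖ + ‖u p • ((fderiv ℝ η p.1).comp (ContinuousLinearMap.fst ℝ ℝ ℝ))‖ :=
        norm_add_le _ _
    _ ≤ e + C * d := by
        gcongr
        · rw [norm_smul, Real.norm_eq_abs, abs_of_nonneg h1.1]
          calc η p.1 * ‖fderiv ℝ u p‖ ≤ 1 * ‖fderiv ℝ u p‖ :=
                mul_le_mul_of_nonneg_right h1.2 (norm_nonneg _)
            _ ≤ e := by rw [one_mul]; exact he p
        · rw [norm_smul, Real.norm_eq_abs]
          have h2 : ‖(fderiv ℝ η p.1).comp (ContinuousLinearMap.fst ℝ ℝ ℝ)‖ ≤ C := by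
            refine (ContinuousLinearMap.opNorm_comp_le _ _).trans ?_
            calc ‖fderiv ℝ η p.1‖ * ‖ContinuousLinearMap.fst ℝ ℝ ℝ‖ ≤ ‖fderiv ℝ η p.1‖ * 1 :=
                  mul_le_mul_of_nonneg_left (ContinuousLinearMap.norm_fst_le ℝ ℝ ℝ) (norm_nonneg _)
              _ ≤ C := by rw [mul_one]; exact hC
          calc |u p| * ‖(fderiv ℝ η p.1).comp (ContinuousLinearMap.fst ℝ ℝ ℝ)‖ ≤ d * C :=
                mul_le_mul (hd p) h2 (norm_nonneg _) ((abs_nonneg _).trans (hd p))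
            _ = C * d := mul_comm _ _
    _ = C * d + e := by ring

theorem lip_of_nb {u : P2 → ℝ} {b : ℝ} (hu : ContDiff ℝ ∞ u) (h : NB 1 u b) (x x' y : ℝ) :
    |u (x, y) - u (x', y)| ≤ b * |x - x'| := by
  rw [nb_one] at h
  have hud : Differentiable ℝ u := hu.differentiable (by simp)
  have := Convex.norm_image_sub_le_of_norm_fderiv_le (𝕜 := ℝ) (f := u) (C := b) (s := Set.univ)
    (x := ((x', y) : P2)) (y := ((x, y) : P2)) (fun p _ => hud p) (fun p _ => h p) convex_univ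
    (Set.mem_univ _) (Set.mem_univ _)
  rw [Real.norm_eq_abs] at this
  refine this.trans (le_of_eq ?_)
  congr 1
  rw [Prod.mk_sub_mk, sub_self, Prod.norm_mk, norm_zero, Real.norm_eq_abs]
  exact max_eq_left (abs_nonneg _)

/-- derivative bound of the inverse displacement -/
theorem nb_nv {w n : P2 → ℝ} {b : ℝ} (hw : ContDiff ℝ ∞ w) (hn : ContDiff ℝ ∞ n)
    (heq : ∀ p, n p + w (p.1 + n p, p.2) = 0) (hb : NB 1 w b) (hb2 : b ≤ 1 / 2) :
    NB 1 n (2 * b) := by
  rw [nb_one] at hb ⊢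
  intro p
  have hb0 : 0 ≤ b := (norm_nonneg _).trans (hb p)
  have hwd : Differentiable ℝ w := hw.differentiable (by simp)
  have hnd : Differentiable ℝ n := hn.differentiable (by simp)
  set q : P2 := (p.1 + n p, p.2) with hq
  have hg : HasFDerivAt (fun p : P2 => ((p.1 + n p, p.2) : P2))
      ((ContinuousLinearMap.fst ℝ ℝ ℝ + fderiv ℝ n p).prod (ContinuousLinearMap.snd ℝ ℝ ℝ)) p :=
    (hasFDerivAt_fst.add (hnd p).hasFDerivAt).prodMk hasFDerivAt_snd
  have hcomp : HasFDerivAt (fun p : P2 => w (p.1 + n p, p.2))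
      ((fderiv ℝ w q).comp
        ((ContinuousLinearMap.fst ℝ ℝ ℝ + fderiv ℝ n p).prod (ContinuousLinearMap.snd ℝ ℝ ℝ))) p :=
    HasFDerivAt.comp p (f := fun p : P2 => ((p.1 + n p, p.2) : P2)) (hwd q).hasFDerivAt hg
  have hsum := (hnd p).hasFDerivAt.add hcomp
  have h0 : HasFDerivAt (fun p : P2 => n p + w (p.1 + n p, p.2)) (0 : P2 →L[ℝ] ℝ) p := by
    have : (fun p : P2 => n p + w (p.1 + n p, p.2)) = fun _ => 0 := funext heq
    rw [this]
    exact hasFDerivAt_const _ _
  have hz := hsum.unique h0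
  refine ContinuousLinearMap.opNorm_le_bound _ (by positivity) (fun v => ?_)
  have hv := congrArg (fun L : P2 →L[ℝ] ℝ => L v) hz
  simp only [add_apply, ContinuousLinearMap.comp_apply,
    zero_apply] at hv
  set a := fderiv ℝ n p v with ha
  have h1 : ‖a‖ ≤ b * ‖(((ContinuousLinearMap.fst ℝ ℝ ℝ + fderiv ℝ n p).prod
      (ContinuousLinearMap.snd ℝ ℝ ℝ)) v : P2)‖ := by
    have : a = - fderiv ℝ w q (((ContinuousLinearMap.fst ℝ ℝ ℝ + fderiv ℝ n p).prod
      (ContinuousLinearMap.snd ℝ ℝ ℝ)) v) := by linarith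
    rw [this, norm_neg]
    exact (ContinuousLinearMap.le_opNorm _ _).trans
      (mul_le_mul_of_nonneg_right (hb q) (norm_nonneg _))
  have h2 : ‖(((ContinuousLinearMap.fst ℝ ℝ ℝ + fderiv ℝ n p).prod
      (ContinuousLinearMap.snd ℝ ℝ ℝ)) v : P2)‖ ≤ ‖v‖ + ‖a‖ := by
    rw [ContinuousLinearMap.prod_apply, Prod.norm_def]
    refine max_le ?_ ?_
    · simp only [add_apply, ContinuousLinearMap.coe_fst']
      refine (norm_add_le _ _).trans ?_
      gcongr
      exact norm_fst_le v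
    · simp only [ContinuousLinearMap.coe_snd']
      exact (norm_snd_le v).trans (le_add_of_nonneg_right (norm_nonneg _))
  have h3 : ‖a‖ ≤ b * (‖v‖ + ‖a‖) := h1.trans (mul_le_mul_of_nonneg_left h2 hb0)
  have hna := norm_nonneg a
  have hnv := norm_nonneg v
  nlinarith

/-- derivative bound of `star`. -/
theorem nb_star {u v : P2 → ℝ} {b c : ℝ} (hu : ContDiff ℝ ∞ u) (hv : ContDiff ℝ ∞ v)
    (hb : NB 1 u b) (hc : NB 1 v c) : NB 1 (star u v) (c + b * (1 + c)) := by
  rw [nb_one] at hb hc ⊢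
  intro p
  have hb0 : 0 ≤ b := (norm_nonneg _).trans (hb p)
  have hud : Differentiable ℝ u := hu.differentiable (by simp)
  have hvd : Differentiable ℝ v := hv.differentiable (by simp)
  set q : P2 := (p.1 + v p, p.2) with hq
  have hg : HasFDerivAt (fun p : P2 => ((p.1 + v p, p.2) : P2))
      ((ContinuousLinearMap.fst ℝ ℝ ℝ + fderiv ℝ v p).prod (ContinuousLinearMap.snd ℝ ℝ ℝ)) p :=
    (hasFDerivAt_fst.add (hvd p).hasFDerivAt).prodMk hasFDerivAt_snd
  have hcomp : HasFDerivAt (fun p : P2 => u (p.1 + v p, p.2))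
      ((fderiv ℝ u q).comp
        ((ContinuousLinearMap.fst ℝ ℝ ℝ + fderiv ℝ v p).prod (ContinuousLinearMap.snd ℝ ℝ ℝ))) p :=
    HasFDerivAt.comp p (f := fun p : P2 => ((p.1 + v p, p.2) : P2)) (hud q).hasFDerivAt hg
  have hsum := (hvd p).hasFDerivAt.add hcomp
  have hfd : fderiv ℝ (star u v) p = fderiv ℝ v p + (fderiv ℝ u q).comp
        ((ContinuousLinearMap.fst ℝ ℝ ℝ + fderiv ℝ v p).prod (ContinuousLinearMap.snd ℝ ℝ ℝ)) :=
    hsum.fderiv
  rw [hfd]
  refine (norm_add_le _ _).trans ?_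
  gcongr
  · exact hc p
  · refine (ContinuousLinearMap.opNorm_comp_le _ _).trans ?_
    gcongr
    · exact hb q
    · refine ContinuousLinearMap.opNorm_le_bound _ (by have := (norm_nonneg _).trans (hc p); linarith)
        (fun z => ?_)
      rw [ContinuousLinearMap.prod_apply, Prod.norm_def]
      have hz := norm_nonneg z
      have hcz : ‖fderiv ℝ v p z‖ ≤ c * ‖z‖ := (ContinuousLinearMap.le_opNorm _ _).trans
        (mul_le_mul_of_nonneg_right (hc p) hz)
      have hc0 : 0 ≤ c := (norm_nonneg _).trans (hc p)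
      refine max_le ?_ ?_
      · simp only [add_apply, ContinuousLinearMap.coe_fst']
        refine (norm_add_le _ _).trans ?_
        have := norm_fst_le z
        linarith
      · simp only [ContinuousLinearMap.coe_snd']
        have := norm_snd_le z
        nlinarith

theorem contDiff_star {u v : P2 → ℝ} (hu : ContDiff ℝ ∞ u) (hv : ContDiff ℝ ∞ v) :
    ContDiff ℝ ∞ (star u v) := by
  unfold Pool.Agent.W133.DQ.star
  exact hv.add (hu.comp ((contDiff_fst.add hv).prodMk contDiff_snd))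

theorem smD_tr (v : P2) : SmD (tr v) := by
  refine ⟨?_, ?_⟩
  · simp only [tr_apply]
    exact contDiff_id.add contDiff_const
  · simp only [tr_inv_apply]
    exact contDiff_id.sub contDiff_const

theorem conj_tr_LP {P : Equiv.Perm P2} (hP : P ∈ LP) (a : ℝ) :
    tr (a, 0) * P * (tr (a, 0))⁻¹ ∈ LP := by
  obtain ⟨⟨hs, R, hR⟩, h2⟩ := hP
  refine ⟨⟨smD_mul (smD_mul (smD_tr _) hs) (smD_inv (smD_tr _)), R + |a|, fun p hp => ?_⟩,
    fun p => ?_⟩
  · rw [Equiv.Perm.mul_apply, Equiv.Perm.mul_apply, tr_inv_apply, hR, tr_apply]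
    · simp
    · have h1 : ‖p‖ ≤ ‖p - (a, 0)‖ + ‖((a, 0) : P2)‖ := by
        have := norm_add_le (p - ((a, 0) : P2)) ((a, 0) : P2)
        rwa [sub_add_cancel] at this
      have h3 : ‖((a, 0) : P2)‖ = |a| := by
        rw [Prod.norm_mk, norm_zero, Real.norm_eq_abs]
        exact max_eq_left (abs_nonneg _)
      rw [h3] at h1
      linarith
  · rw [Equiv.Perm.mul_apply, Equiv.Perm.mul_apply, tr_inv_apply, tr_apply, Prod.snd_add, h2]
    simp


theorem chi0_zero (hcut : S_CUT) {x : ℝ} (h : x ≤ 1 / 10 ∨ 9 / 10 ≤ x) : chi0 x = 0 := by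
  obtain ⟨hpl, -⟩ := hcut
  obtain ⟨-, -, -, h0⟩ := hpl (1/5) (2/5) (by norm_num) (by norm_num)
  unfold chi0
  refine h0 _ ?_
  rcases h with h | h
  · rw [abs_of_nonpos (by linarith)]; linarith
  · rw [abs_of_nonneg (by linarith)]; linarith

theorem kap_zero (hcut : S_CUT) {x : ℝ} (h : 3 / 5 ≤ |x|) : kap x = 0 := by
  obtain ⟨hpl, -⟩ := hcut
  obtain ⟨-, -, -, h0⟩ := hpl (2/5) (3/5) (by norm_num) (by norm_num)
  exact h0 _ h

theorem kap_one (hcut : S_CUT) {x : ℝ} (h : |x| ≤ 2 / 5) : kap x = 1 := by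
  obtain ⟨hpl, -⟩ := hcut
  obtain ⟨-, -, h0, -⟩ := hpl (2/5) (3/5) (by norm_num) (by norm_num)
  exact h0 _ h

theorem unroll (hmul : S_ROLLMUL) (hsh : S_ROLLSH) (hcut : S_CUT) (hnv : S_NV) (hgu : S_GU) :
    S_UNROLL := by
  obtain ⟨hNV1, hNV2, hNV3, -⟩ := hnv
  have hcut' := hcut
  obtain ⟨hpl, ⟨hchiS, hchi01, hchiP, hchi1, -, hchieq⟩, -, hder⟩ := hcut'
  obtain ⟨C, hCchi, -, hCchi0, hCkap, -, -⟩ := hder 1
  have hC0 : 0 ≤ C := (norm_nonneg _).trans (hCchi 0)
  have hchi0S : ContDiff ℝ ∞ chi0 := by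
    unfold chi0
    exact (hpl (1/5) (2/5) (by norm_num) (by norm_num)).1.comp (contDiff_id.sub contDiff_const)
  have hkapS : ContDiff ℝ ∞ kap := (hpl (2/5) (3/5) (by norm_num) (by norm_num)).1
  have hchi001 : ∀ x, 0 ≤ chi0 x ∧ chi0 x ≤ 1 := fun x =>
    (hpl (1/5) (2/5) (by norm_num) (by norm_num)).2.1 _
  have hkap01 : ∀ x, 0 ≤ kap x ∧ kap x ≤ 1 := fun x =>
    (hpl (2/5) (3/5) (by norm_num) (by norm_num)).2.1 _
  set δ : ℝ := 1 / (20 * (C + 1)) with hδ
  have hδ0 : 0 < δ := by positivity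
  have hδC : (C + 1) * δ = 1 / 20 := by
    rw [hδ]; field_simp
  have hδ1 : δ ≤ 1 / 20 := by nlinarith
  refine ⟨δ, hδ0, fun f hf hper hsupp hfb hf1 => ?_⟩
  obtain ⟨B, hB⟩ := hsupp
  -- `w = chi f`
  set w : P2 → ℝ := fun q => chi q.1 * f q with hw
  have hwS : ContDiff ℝ ∞ w := (hchiS.comp contDiff_fst).mul hf
  have hw1' : NB 1 w (C * δ + δ) := nb_mul_x hchiS hchi01 hCchi hf hfb hf1
  have hw1 : NB 1 w (1 / 20) := fun p => (hw1' p).trans (by nlinarith)
  have hw12 : NB 1 w (1 / 2) := fun p => (hw1 p).trans (by norm_num)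
  have hwb : ∀ p, |w p| ≤ δ := by
    intro p
    rw [hw]
    simp only
    rw [abs_mul, abs_of_nonneg (hchi01 p.1).1]
    calc chi p.1 * |f p| ≤ 1 * |f p| := mul_le_mul_of_nonneg_right (hchi01 p.1).2 (abs_nonneg _)
      _ ≤ δ := by rw [one_mul]; exact hfb p
  obtain ⟨hnS, hneq, -, hnb, hn0⟩ := hNV3 w hwS hw12 ⟨δ, hwb⟩
  set n : P2 → ℝ := nv w with hn
  have hnb' : ∀ p, |n p| ≤ δ := hnb δ hwb
  have hn1 : NB 1 n (2 * (1 / 20)) := nb_nv hwS hnS hneq hw1 (by norm_num)
  have hwP : ∀ p : P2, w (p.1 + 1, p.2) = w p := by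
    intro p
    simp only [hw]
    rw [hchiP, hper]
  have hnP : ∀ p : P2, n (p.1 + 1, p.2) = n p := by
    intro p
    rw [hn]
    unfold nv
    congr 1
    funext t
    have := hwP (p.1 + t, p.2)
    simp only at this ⊢
    rw [show p.1 + 1 + t = p.1 + t + 1 by ring, this]
  -- `h = star n f`
  set h : P2 → ℝ := Pool.Agent.W133.DQ.star n f with hh
  have hhS : ContDiff ℝ ∞ h := contDiff_star hnS hf
  have hh1' : NB 1 h (δ + 2 * (1 / 20) * (1 + δ)) := nb_star hnS hf hn1 hf1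
  have hh1 : NB 1 h (1 / 4) := fun p => (hh1' p).trans (by nlinarith)
  have hhval : ∀ p, h p = f p + n (p.1 + f p, p.2) := fun p => rfl
  have hhb : ∀ p, |h p| ≤ 2 * δ := by
    intro p
    rw [hhval]
    refine (abs_add_le _ _).trans ?_
    have h1 := hfb p
    have h2 := hnb' (p.1 + f p, p.2)
    linarith
  have hhP : ∀ p : P2, h (p.1 + 1, p.2) = h p := by
    intro p
    rw [hhval, hhval, hper]
    congr 1
    have := hnP (p.1 + f p, p.2)
    simp only at this ⊢
    rw [show p.1 + 1 + f p = p.1 + f p + 1 by ring, this]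
  -- uniqueness of the inverse displacement
  have huniq : ∀ (q : P2) (t : ℝ), t + w (q.1 + t, q.2) = 0 → n q = t := by
    intro q t ht
    have h1 := hneq q
    have h2 := lip_of_nb hwS hw12 (q.1 + n q) (q.1 + t) q.2
    have h3 : n q - t = - (w (q.1 + n q, q.2) - w (q.1 + t, q.2)) := by linarith
    have h4 : |n q - t| ≤ 1 / 2 * |n q - t| := by
      calc |n q - t| = |w (q.1 + n q, q.2) - w (q.1 + t, q.2)| := by rw [h3, abs_neg]
        _ ≤ 1 / 2 * |q.1 + n q - (q.1 + t)| := h2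
        _ = 1 / 2 * |n q - t| := by congr 2; ring
    have h5 : |n q - t| = 0 := le_antisymm (by linarith [abs_nonneg (n q - t)]) (abs_nonneg _)
    linarith [abs_eq_zero.1 h5]
  have hhz : ∀ p : P2, chi p.1 = 1 → h p = 0 := by
    intro p hp
    rw [hhval]
    have : n (p.1 + f p, p.2) = - f p := by
      refine huniq _ _ ?_
      simp only [add_neg_cancel_right]
      rw [hw]
      simp only [Prod.mk.eta]
      rw [hp]; ring
    rw [this]; ring
  have hchi1' : ∀ x : ℝ, 3 / 10 ≤ |x| → |x| ≤ 7 / 10 → chi x = 1 := by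
    intro x h1 h2
    rcases le_total 0 x with hx | hx
    · rw [abs_of_nonneg hx] at h1 h2
      exact hchi1 x h1 h2
    · rw [abs_of_nonpos hx] at h1 h2
      rw [← hchiP]
      exact hchi1 _ (by linarith) (by linarith)
  have hBz : ∀ p : P2, B ≤ |p.2| → h p = 0 := by
    intro p hp
    rw [hhval, hB p hp, hn0]
    · simp
    · rw [hw]
      simp only [add_zero, Prod.mk.eta]
      rw [hB p hp]; ring
  -- the two pieces
  have hu1S : ContDiff ℝ ∞ (un1 f) := (hchi0S.comp contDiff_fst).mul hf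
  have hu2S : ContDiff ℝ ∞ (un2 f) := (hkapS.comp contDiff_fst).mul hhS
  have hu1N : NB 1 (un1 f) (1 / 2) := fun p =>
    (nb_mul_x hchi0S hchi001 hCchi0 hf hfb hf1 p).trans (by nlinarith)
  have hu2N : NB 1 (un2 f) (1 / 2) := fun p =>
    (nb_mul_x hkapS hkap01 hCkap hhS hhb hh1 p).trans (by nlinarith)
  have hu1B : ∀ p, |un1 f p| ≤ δ := by
    intro p
    unfold un1
    rw [abs_mul, abs_of_nonneg (hchi001 p.1).1]
    calc chi0 p.1 * |f p| ≤ 1 * |f p| := mul_le_mul_of_nonneg_right (hchi001 p.1).2 (abs_nonneg _)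
      _ ≤ δ := by rw [one_mul]; exact hfb p
  have hu2B : ∀ p, |un2 f p| ≤ 2 * δ := by
    intro p
    change |kap p.1 * h p| ≤ 2 * δ
    rw [abs_mul, abs_of_nonneg (hkap01 p.1).1]
    calc kap p.1 * |h p| ≤ 1 * |h p| := mul_le_mul_of_nonneg_right (hkap01 p.1).2 (abs_nonneg _)
      _ ≤ 2 * δ := by rw [one_mul]; exact hhb p
  have hu2z : ∀ p : P2, 3 / 10 ≤ |p.1| → un2 f p = 0 := by
    intro p hp
    change kap p.1 * h p = 0
    rcases le_total (|p.1|) (7 / 10) with h1 | h1
    · rw [hhz p (hchi1' _ hp h1), mul_zero]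
    · rw [kap_zero hcut (by linarith), zero_mul]
  have hu2e : ∀ p : P2, |p.1| ≤ 1 / 2 → un2 f p = h p := by
    intro p hp
    rcases le_total (|p.1|) (3 / 10) with h1 | h1
    · change kap p.1 * h p = h p
      rw [kap_one hcut (by linarith), one_mul]
    · rw [hu2z p h1, hhz p (hchi1' _ h1 (by linarith))]
  obtain ⟨P1, hP1, hP1g⟩ := hgu (un1 f) hu1S ⟨1, B, by
    rintro p (hp | hp)
    · change chi0 p.1 * f p = 0
      rw [chi0_zero hcut, zero_mul]
      rcases le_abs'.1 hp with h | h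
      · left; linarith
      · right; linarith
    · change chi0 p.1 * f p = 0
      rw [hB p hp, mul_zero]⟩ hu1N
  obtain ⟨P2', hP2, hP2g⟩ := hgu (un2 f) hu2S ⟨1, B, by
    rintro p (hp | hp)
    · exact hu2z p (by linarith)
    · change kap p.1 * h p = 0
      rw [hBz p hp, mul_zero]⟩ hu2N
  have hR1 : Roll P1 (fun p => (p.1 + w p, p.2)) := by
    refine roll_of_strip P1 (un1 f) w 0 hP1g hwP ?_ ?_ ?_ ?_
    · intro p h1 h2
      change chi0 p.1 * f p = chi p.1 * f p
      rw [hchieq p.1 h1 (by linarith)]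
    · intro p h1
      change chi0 p.1 * f p = 0
      rw [chi0_zero hcut (Or.inl (by linarith)), zero_mul]
    · intro p h1
      change chi0 p.1 * f p = 0
      rw [chi0_zero hcut (Or.inr (by linarith)), zero_mul]
    · intro p h1 h2
      rcases le_total p.1 (1 / 10) with h3 | h3
      · have : un1 f p = 0 := by
          change chi0 p.1 * f p = 0
          rw [chi0_zero hcut (Or.inl h3), zero_mul]
        rw [this]; linarith
      · have := (abs_le.1 (hu1B p)).1
        linarith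
  have hR2 : Roll P2' (fun p => (p.1 + h p, p.2)) := by
    refine roll_of_strip P2' (un2 f) h (-1 / 2) hP2g hhP ?_ ?_ ?_ ?_
    · intro p h1 h2
      exact hu2e p (abs_le.2 ⟨by linarith, by linarith⟩)
    · intro p h1
      refine hu2z p ?_
      rw [abs_of_nonpos (by linarith)]; linarith
    · intro p h1
      refine hu2z p ?_
      rw [abs_of_nonneg (by linarith)]; linarith
    · intro p h1 h2
      rcases le_total (3 / 10) (|p.1|) with h3 | h3
      · rw [hu2z p h3]; linarith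
      · have := (abs_le.1 (hu2B p)).1
        have h4 := (abs_le.1 h3).1
        linarith
  have hd1 : ∀ p, |(P1 p).1 - p.1| ≤ 1 / 2 := by
    intro p
    rw [hP1g p]
    simp only [add_sub_cancel_left]
    exact (hu1B p).trans (by linarith)
  have hd2 : ∀ p, |(P2' p).1 - p.1| ≤ 1 / 2 := by
    intro p
    rw [hP2g p]
    simp only [add_sub_cancel_left]
    exact (hu2B p).trans (by linarith)
  have hR2' := hsh P2' hP2 hd2 _ hR2 (-8)
  have hcast : (((-8 : ℤ) : ℝ)) = -8 := by norm_num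
  rw [hcast] at hR2'
  have hconj : ∀ p : P2, (tr (-8, 0) * P2' * (tr (-8, 0))⁻¹) p = (p.1 + un2 f (p.1 + 8, p.2), p.2) := by
    intro p
    rw [Equiv.Perm.mul_apply, Equiv.Perm.mul_apply, tr_inv_apply, tr_apply]
    have e : p - ((-8, 0) : P2) = (p.1 + 8, p.2) := by
      ext
      · simp only [Prod.fst_sub]; ring
      · simp
    rw [e, hP2g]
    ext
    · simp only [Prod.fst_add]; ring
    · simp
  refine ⟨P1, hP1, P2', hP2, hP1g, hP2g, fun p => (hu1B p).trans (by linarith),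
    fun p => (hu2B p).trans (by linarith), ?_⟩
  have hfin := hmul (tr (-8, 0) * P2' * (tr (-8, 0))⁻¹) (conj_tr_LP hP2 (-8)) P1 hP1
    (by
      intro p
      rw [hconj]
      simp only [add_sub_cancel_left]
      exact (hu2B _).trans (by linarith)) hd1 (-7)
    (by
      intro p hp
      rw [hconj, hu2z]
      · simp
      · simp only
        rw [abs_of_nonneg (by linarith)]; linarith)
    (by
      intro p hp
      rw [hP1g]
      change (p.1 + chi0 p.1 * f p, p.2) = p
      rw [chi0_zero hcut (Or.inl (by linarith))]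
      simp) _ _ hR2' hR1
  have he : ((fun p : P2 => ((p.1 + w p, p.2) : P2)) ∘ (fun p : P2 => ((p.1 + h p, p.2) : P2))) =
      (fun p => (p.1 + f p, p.2)) := by
    funext p
    simp only [Function.comp_apply, Prod.mk.injEq, and_true]
    have h1 := hneq (p.1 + f p, p.2)
    simp only at h1
    rw [hhval]
    rw [show p.1 + (f p + n (p.1 + f p, p.2)) = p.1 + f p + n (p.1 + f p, p.2) by ring]
    linarith
  rw [he] at hfin
  exact hfin

end Pool.Agent.W138.DQ
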